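import Mathlib

/-!
# The bipartite graph of a family of edges
-/

set_option autoImplicit false

namespace Pool.Agent.Helper32.PD

/-- the bipartite graph with edges `(a e, b e)` -/
def bip {ι₀ ι₁ ε : Type} (a : ε → ι₀) (b : ε → ι₁) : SimpleGraph (ι₀ ⊕ ι₁) :=
  SimpleGraph.fromRel fun x y => ∃ e, x = Sum.inl (a e) ∧ y = Sum.inr (b e)

section
variable {ι₀ ι₁ ε : Type} (a : ε → ι₀) (b : ε → ι₁)

theorem bip_adj_inl_inr (i : ι₀) (j : ι₁) :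
    (bip a b).Adj (Sum.inl i) (Sum.inr j) ↔ ∃ e, a e = i ∧ b e = j := by
  unfold bip
  rw [SimpleGraph.fromRel_adj]
  constructor
  · rintro ⟨-, ⟨e, h1, h2⟩ | ⟨e, h1, h2⟩⟩
    · exact ⟨e, (Sum.inl_injective h1).symm, (Sum.inr_injective h2).symm⟩
    · simp at h1
  · rintro ⟨e, h1, h2⟩
    refine ⟨by simp, Or.inl ⟨e, by rw [h1], by rw [h2]⟩⟩

theorem bip_adj_inr_inl (j : ι₁) (i : ι₀) :
    (bip a b).Adj (Sum.inr j) (Sum.inl i) ↔ ∃ e, a e = i ∧ b e = j := by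
  rw [SimpleGraph.adj_comm, bip_adj_inl_inr]

theorem not_bip_adj_inl_inl (i i' : ι₀) : ¬ (bip a b).Adj (Sum.inl i) (Sum.inl i') := by
  unfold bip
  rw [SimpleGraph.fromRel_adj]
  rintro ⟨-, ⟨e, h1, h2⟩ | ⟨e, h1, h2⟩⟩ <;> simp at h2

theorem not_bip_adj_inr_inr (j j' : ι₁) : ¬ (bip a b).Adj (Sum.inr j) (Sum.inr j') := by
  unfold bip
  rw [SimpleGraph.fromRel_adj]
  rintro ⟨-, ⟨e, h1, h2⟩ | ⟨e, h1, h2⟩⟩ <;> simp at h1

end

end Pool.Agent.Helper32.PD
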