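import Pool.Agent.Helper32.PD.Defs
import Pool.Agent.Helper32.Piv.Pivot3
import Pool.Agent.Helper58.PD.Bip

/-!
# PD-13a: an induced odd subdivision gives a pivot-minor
-/

set_option autoImplicit false

namespace Pool.Agent.Helper32.PD

open Finset
open scoped Classical

variable {V : Type}

open Pool.Agent.Helper32.Piv in
theorem pivotMinor_of_subD_two {ι₀ ι₁ ε : Type} [Fintype ι₀] [Fintype ι₁] [Fintype ε]
    (F : SimpleGraph V) (a : ε → ι₀) (b : ε → ι₁)
    (hab : ∀ e e', a e = a e' → b e = b e' → e = e') (f₀ : ι₀ → V) (f₁ : ι₁ → V)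
    (p : ε → List V) (h : SubD F a b 2 0 f₀ f₁ p) : HasPivotMinor F (bip a b) := by
  -- the lengths are positive and even
  have hlen : ∀ e, 2 * ((p e).length / 2) = (p e).length := fun e => by
    have := h.len e; omega
  have hpos : ∀ e, 0 < (p e).length := by
    intro e
    rcases Nat.eq_zero_or_pos (p e).length with h0 | h0
    · exfalso
      have h1 := (h.path e).2 0 1 (by simp) (by simp)
      have h2 : p e = [] := List.eq_nil_of_length_eq_zero h0
      have h3 := h.indep (a e) (b e)
      simp only [h2] at h1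
      simp at h1
      exact h3 h1
    · exact h0
  set P : ε → ℕ → V := fun e i => (p e).getD i (f₀ (a e)) with hP
  have hPget : ∀ e i (hi : i < (p e).length), P e i = (p e)[i] := by
    intro e i hi
    simp only [hP]
    rw [List.getD_eq_getElem _ _ hi]
  have hPmem : ∀ e i, i < (p e).length → P e i ∈ p e := by
    intro e i hi
    rw [hPget e i hi]
    exact List.getElem_mem hi
  -- adjacency along the path
  have hL : ∀ e, (f₀ (a e) :: (p e ++ [f₁ (b e)])).length = (p e).length + 2 := by
    intro e; simp
  have hget : ∀ e i (hi : i < (p e).length) (hi' : i + 1 < (f₀ (a e) :: (p e ++ [f₁ (b e)])).length),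
      (f₀ (a e) :: (p e ++ [f₁ (b e)]))[i + 1] = P e i := by
    intro e i hi hi'
    rw [hPget e i hi, List.getElem_cons_succ, List.getElem_append_left hi]
  have hget0 : ∀ e (hi' : 0 < (f₀ (a e) :: (p e ++ [f₁ (b e)])).length),
      (f₀ (a e) :: (p e ++ [f₁ (b e)]))[0] = f₀ (a e) := by
    intro e hi'
    rfl
  have hgetl : ∀ e (hi' : (p e).length + 1 < (f₀ (a e) :: (p e ++ [f₁ (b e)])).length),
      (f₀ (a e) :: (p e ++ [f₁ (b e)]))[(p e).length + 1] = f₁ (b e) := by
    intro e hi'
    rw [List.getElem_cons_succ, List.getElem_append_right (le_refl _)]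
    simp
  have hadjPP : ∀ e i j, i < (p e).length → j < (p e).length →
      (F.Adj (P e i) (P e j) ↔ (j = i + 1 ∨ i = j + 1)) := by
    intro e i j hi hj
    have h1 := (h.path e).2 (i + 1) (j + 1) (by rw [hL]; omega) (by rw [hL]; omega)
    rw [hget e i hi, hget e j hj] at h1
    rw [h1]
    omega
  have hadj0P : ∀ e j, j < (p e).length → (F.Adj (f₀ (a e)) (P e j) ↔ j = 0) := by
    intro e j hj
    have h1 := (h.path e).2 0 (j + 1) (by rw [hL]; omega) (by rw [hL]; omega)
    rw [hget e j hj, hget0 e] at h1
    rw [h1]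
    omega
  have hadj1P : ∀ e j, j < (p e).length → (F.Adj (f₁ (b e)) (P e j) ↔ j + 1 = (p e).length) := by
    intro e j hj
    have h1 := (h.path e).2 ((p e).length + 1) (j + 1) (by rw [hL]; omega) (by rw [hL]; omega)
    rw [hget e j hj, hgetl e] at h1
    rw [h1]
    omega
  have hinjP : ∀ e i j, i < (p e).length → j < (p e).length → P e i = P e j → i = j := by
    intro e i j hi hj hij
    have h1 := (h.path e).1
    have hi' : i + 1 < (f₀ (a e) :: (p e ++ [f₁ (b e)])).length := by rw [hL]; omega
    have hj' : j + 1 < (f₀ (a e) :: (p e ++ [f₁ (b e)])).length := by rw [hL]; omega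
    have h3 : (f₀ (a e) :: (p e ++ [f₁ (b e)]))[i + 1] =
        (f₀ (a e) :: (p e ++ [f₁ (b e)]))[j + 1] := by
      rw [hget e i hi, hget e j hj, hij]
    have h4 := h1.getElem_inj_iff.1 h3
    omega
  have hne0 : ∀ e j, j < (p e).length → f₀ (a e) ≠ P e j := by
    intro e j hj hij
    have h1 := (h.path e).1
    rw [List.nodup_cons] at h1
    exact h1.1 (hij ▸ List.mem_append_left _ (hPmem e j hj))
  have hne1 : ∀ e j, j < (p e).length → f₁ (b e) ≠ P e j := by
    intro e j hj hij
    have h1 := (h.path e).1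
    rw [List.nodup_cons] at h1
    have h2 := h1.2
    rw [List.nodup_append] at h2
    exact h2.2.2 (P e j) (hPmem e j hj) (f₁ (b e)) (by simp) hij.symm
  have hfar0 : ∀ e i j, j < (p e).length → i ≠ a e →
      f₀ i ≠ P e j ∧ ¬ F.Adj (f₀ i) (P e j) := by
    intro e i j hj hi
    exact h.far₀ e i hi (f₀ i) (by simp) (P e j) (hPmem e j hj)
  have hfar1 : ∀ e i j, j < (p e).length → i ≠ b e →
      f₁ i ≠ P e j ∧ ¬ F.Adj (f₁ i) (P e j) := by
    intro e i j hj hi
    exact h.far₁ e i hi (f₁ i) (by simp) (P e j) (hPmem e j hj)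
  refine hasPivotMinor_of_links F (bip a b) (univ : Finset ε) (fun e => (p e).length / 2) P
    (fun e => Sum.inl (a e)) (fun e => Sum.inr (b e)) ?_ ?_ (Sum.elim f₀ f₁) ?_ ?_ ?_ ?_ ?_ ?_
  · intro e _
    refine ⟨?_, ?_, ?_⟩
    · have := hlen e; have := hpos e; omega
    · intro i hi j hj hij
      rw [hlen] at hi hj
      exact hinjP e i j hi hj hij
    · intro i hi j hj
      rw [hlen] at hi hj
      exact hadjPP e i j hi hj
  · intro e _ f _ hef i hi j hj
    rw [hlen] at hi hj
    exact h.anti e f hef (P e i) (hPmem e i hi) (P f j) (hPmem f j hj)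
  · -- injective
    rintro (i | i) (j | j) hij
    · exact congrArg _ (h.inj₀ hij)
    · exact absurd hij (h.ne i j)
    · exact absurd hij.symm (h.ne j i)
    · exact congrArg _ (h.inj₁ hij)
  · -- hfp
    intro e _ i hi w
    rw [hlen] at hi
    rcases w with w | w
    · by_cases hw : w = a e
      · subst hw; exact hne0 e i hi
      · exact (hfar0 e w i hi hw).1
    · by_cases hw : w = b e
      · subst hw; exact hne1 e i hi
      · exact (hfar1 e w i hi hw).1
  · -- hfirst
    intro e _ w
    rcases w with w | w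
    · by_cases hw : w = a e
      · subst hw
        simp only [Sum.elim_inl, iff_true]
        exact (hadj0P e 0 (hpos e)).2 rfl
      · have h1 := (hfar0 e w 0 (hpos e) hw).2
        simp only [Sum.elim_inl, Sum.inl.injEq]
        exact ⟨fun h2 => absurd h2 h1, fun h2 => absurd h2 hw⟩
    · simp only [Sum.elim_inr, reduceCtorEq, iff_false]
      by_cases hw : w = b e
      · subst hw
        rw [hadj1P e 0 (hpos e)]
        have := hlen e
        omega
      · exact (hfar1 e w 0 (hpos e) hw).2
  · -- hlast
    intro e _ w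
    rw [hlen]
    have hl : (p e).length - 1 < (p e).length := by have := hpos e; omega
    rcases w with w | w
    · simp only [Sum.elim_inl, reduceCtorEq, iff_false]
      by_cases hw : w = a e
      · subst hw
        rw [hadj0P e _ hl]
        have := hlen e; have := hpos e
        omega
      · exact (hfar0 e w _ hl hw).2
    · by_cases hw : w = b e
      · subst hw
        simp only [Sum.elim_inr, iff_true]
        rw [hadj1P e _ hl]
        omega
      · have h1 := (hfar1 e w _ hl hw).2
        simp only [Sum.elim_inr, Sum.inr.injEq]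
        exact ⟨fun h2 => absurd h2 h1, fun h2 => absurd h2 hw⟩
  · -- hmid
    intro e _ i hi h0 h1 w
    rw [hlen] at hi h1
    rcases w with w | w
    · by_cases hw : w = a e
      · subst hw
        simp only [Sum.elim_inl]
        rw [hadj0P e i hi]; omega
      · exact (hfar0 e w i hi hw).2
    · by_cases hw : w = b e
      · subst hw
        simp only [Sum.elim_inr]
        rw [hadj1P e i hi]; omega
      · exact (hfar1 e w i hi hw).2
  · -- the count
    intro x y hxy
    rcases x with x | x <;> rcases y with y | y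
    · have e1 : adjM (bip a b) (Sum.inl x) (Sum.inl y) = 0 :=
        adjM_eq_zero.2 (not_bip_adj_inl_inl a b x y)
      have e2 : adjM F (Sum.elim f₀ f₁ (Sum.inl x)) (Sum.elim f₀ f₁ (Sum.inl y)) = 0 :=
        adjM_eq_zero.2 (h.indep₀ x y)
      rw [e1, e2]
      simp
    · have e2 : adjM F (Sum.elim f₀ f₁ (Sum.inl x)) (Sum.elim f₀ f₁ (Sum.inr y)) = 0 :=
        adjM_eq_zero.2 (h.indep x y)
      rw [e2, zero_add]
      by_cases hex : ∃ e, a e = x ∧ b e = y
      · obtain ⟨e₀, h1, h2⟩ := hex
        have e4 : adjM (bip a b) (Sum.inl x) (Sum.inr y) = 1 :=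
          adjM_eq_one.2 ((bip_adj_inl_inr a b x y).2 ⟨e₀, h1, h2⟩)
        rw [e4]
        symm
        rw [Finset.sum_eq_single e₀]
        · simp [h1, h2]
        · intro e _ hne
          have h6 : x = a e → ¬ y = b e := fun h3 h4 =>
            hne (hab e e₀ (by rw [h1, h3]) (by rw [h2, h4]))
          simpa using h6
        · intro h5; exact absurd (Finset.mem_univ _) h5
      · have e4 : adjM (bip a b) (Sum.inl x) (Sum.inr y) = 0 :=
          adjM_eq_zero.2 (fun h5 => hex ((bip_adj_inl_inr a b x y).1 h5))
        rw [e4]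
        symm
        apply Finset.sum_eq_zero
        intro e _
        have h6 : x = a e → ¬ y = b e := fun h3 h4 => hex ⟨e, h3.symm, h4.symm⟩
        simpa using h6
    · have e2 : adjM F (Sum.elim f₀ f₁ (Sum.inr x)) (Sum.elim f₀ f₁ (Sum.inl y)) = 0 := by
        rw [adjM_comm]
        exact adjM_eq_zero.2 (h.indep y x)
      rw [e2, zero_add]
      by_cases hex : ∃ e, a e = y ∧ b e = x
      · obtain ⟨e₀, h1, h2⟩ := hex
        have e4 : adjM (bip a b) (Sum.inr x) (Sum.inl y) = 1 :=
          adjM_eq_one.2 ((bip_adj_inr_inl a b x y).2 ⟨e₀, h1, h2⟩)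
        rw [e4]
        symm
        rw [Finset.sum_eq_single e₀]
        · simp [h1, h2]
        · intro e _ hne
          have h6 : x = b e → ¬ y = a e := fun h3 h4 =>
            hne (hab e e₀ (by rw [h1, h4]) (by rw [h2, h3]))
          simpa using h6
        · intro h5; exact absurd (Finset.mem_univ _) h5
      · have e4 : adjM (bip a b) (Sum.inr x) (Sum.inl y) = 0 :=
          adjM_eq_zero.2 (fun h5 => hex ((bip_adj_inr_inl a b x y).1 h5))
        rw [e4]
        symm
        apply Finset.sum_eq_zero
        intro e _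
        have h6 : x = b e → ¬ y = a e := fun h3 h4 => hex ⟨e, h4.symm, h3.symm⟩
        simpa using h6
    · have e1 : adjM (bip a b) (Sum.inr x) (Sum.inr y) = 0 :=
        adjM_eq_zero.2 (not_bip_adj_inr_inr a b x y)
      have e2 : adjM F (Sum.elim f₀ f₁ (Sum.inr x)) (Sum.elim f₀ f₁ (Sum.inr y)) = 0 :=
        adjM_eq_zero.2 (h.indep₁ x y)
      rw [e1, e2]
      simp

end Pool.Agent.Helper32.PD
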